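import Pool.Agent.H158_PC.Defs

/-!
# The Borel classes in a transitive model of ZF, and countable choice for them: the definitions

Transitive models (`IsZF`) are defined in `Pool.Agent.W868.Defs`; the reals `Rls M` of a model `M`,
restrictions `rs x n`, sequences of sets of reals (`fam`) and sequences of reals (`seqr`), as
elements of a model, are defined in `Pool.Agent.H158_PC.Defs`. A real is a function from `ℕ` to `ℕ`.
-/

set_option autoImplicit false

namespace Run7.h699.BC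

open Pool.Agent.H158_PC

/-- `Bor M true α B` means that `B` is `Σ⁰_α` in `M`, and `Bor M false α B` that it is `Π⁰_α` in `M`:
open sets are unions of basic open sets given by a set `T ∈ M` of finite sequences, `Π⁰_α` sets are
the complements of the `Σ⁰_α` sets, and for `α ≥ 2` a `Σ⁰_α` set is the union of a sequence in `M`
of sets, each of which is `Π⁰_β` for some `β` with `1 ≤ β < α`. No codes are required. -/
inductive Bor (M : Set ZFSet.{0}) : Bool → Ordinal.{0} → Set (ℕ → ℕ) → Prop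
  | opn (T : ZFSet.{0}) (hT : T ∈ M) : Bor M true 1 {x | x ∈ Rls M ∧ ∃ n, rs x n ∈ T}
  | compl (α : Ordinal.{0}) (B : Set (ℕ → ℕ)) (h : Bor M true α B) : Bor M false α (Rls M \ B)
  | union (α : Ordinal.{0}) (A : ℕ → Set (ℕ → ℕ)) (β : ℕ → Ordinal.{0}) (h2 : 2 ≤ α)
      (hA : fam A ∈ M) (hβ : ∀ n, 1 ≤ β n ∧ β n < α) (h : ∀ n, Bor M false (β n) (A n)) :
      Bor M true α (⋃ n, A n)

/-- In `M`, the set `B` is `Σ⁰_α`. -/
def Sig (M : Set ZFSet.{0}) (α : Ordinal.{0}) (B : Set (ℕ → ℕ)) : Prop := Bor M true α B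

/-- The real `k⌢x`, with the value `k` at `0` and `x n` at `n + 1`. -/
def cns (k : ℕ) (x : ℕ → ℕ) : ℕ → ℕ
  | 0 => k
  | n + 1 => x n

/-- The set of all `k⌢x` with `x ∈ A k`. -/
def hat (A : ℕ → Set (ℕ → ℕ)) : Set (ℕ → ℕ) := {z | ∃ k, ∃ x ∈ A k, z = cns k x}

/-- In `M`, countable choice holds for the sequences of nonempty sets of reals that are uniformly
`Σ⁰_α`. -/
def ACu (M : Set ZFSet.{0}) (α : Ordinal.{0}) : Prop :=
  ∀ A : ℕ → Set (ℕ → ℕ), (∀ k, (A k).Nonempty) → fam A ∈ M → (∀ k, Sig M α (A k)) →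
    Sig M α (hat A) → ∃ f : ℕ → ℕ → ℕ, (∀ k, f k ∈ A k) ∧ seqr f ∈ M

/-- In `M`, the set of all reals is the union of countably many countable sets. -/
def CUC (M : Set ZFSet.{0}) : Prop :=
  ∃ D : ℕ → Set (ℕ → ℕ), fam D ∈ M ∧ (∀ x ∈ Rls M, ∃ n, x ∈ D n) ∧
    ∀ n, ∃ e : ℕ → ℕ → ℕ, seqr e ∈ M ∧ D n = Set.range e

end Run7.h699.BC
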