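import Pool.Agent.H158_PC.Hf
import Pool.Agent.Run7.h699.BC.Defs

/-!
# Lexicographically least elements of closed sets in a transitive model
-/

set_option autoImplicit false

namespace Run7.h699.BC

open Pool.Agent.W868 Pool.Agent.H158_PC
open ZFSet (pair)

theorem mem_fam {B : ℕ → Set (ℕ → ℕ)} {u : ZFSet.{0}} :
    u ∈ fam B ↔ ∃ k, ∃ x ∈ B k, u = pair (nat k) (code x) := by
  rw [fam, ZFSet.mem_range]
  constructor
  · rintro ⟨⟨⟨k, x⟩, hx⟩, rfl⟩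
    exact ⟨k, x, hx, rfl⟩
  · rintro ⟨k, x, hx, rfl⟩
    exact ⟨⟨⟨k, x⟩, hx⟩, rfl⟩

theorem pair_mem_fam {B : ℕ → Set (ℕ → ℕ)} {k : ℕ} {x : ℕ → ℕ} :
    pair (nat k) (code x) ∈ fam B ↔ x ∈ B k := by
  rw [mem_fam]
  constructor
  · rintro ⟨k', x', h, h'⟩
    obtain ⟨h1, h2⟩ := ZFSet.pair_inj.1 h'
    rw [nat_injective h1, code_inj h2]
    exact h
  · exact fun h => ⟨k, x, h, rfl⟩

theorem mem_seqr {f : ℕ → ℕ → ℕ} {z : ZFSet.{0}} :
    z ∈ seqr f ↔ ∃ k, z = pair (nat k) (code (f k)) := by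
  rw [seqr, ZFSet.mem_range]
  exact exists_congr fun k => eq_comm

theorem mem_nat {m : ZFSet.{0}} {n : ℕ} : m ∈ nat n ↔ ∃ i < n, m = nat i := by
  induction n with
  | zero => simp [nat]
  | succ n ih =>
    rw [nat, ZFSet.mem_insert_iff, ih]
    constructor
    · rintro (h | ⟨i, hi, h⟩)
      · exact ⟨n, Nat.lt_succ_self n, h⟩
      · exact ⟨i, by omega, h⟩
    · rintro ⟨i, hi, h⟩
      rcases Nat.lt_succ_iff_lt_or_eq.1 hi with h1 | rfl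
      · exact Or.inr ⟨i, h1, h⟩
      · exact Or.inl h

theorem nat_mem_nat {m n : ℕ} : nat m ∈ nat n ↔ m < n := by
  rw [mem_nat]
  constructor
  · rintro ⟨i, hi, h⟩
    rw [nat_injective h]
    exact hi
  · exact fun h => ⟨m, h, rfl⟩

/-- The sets agree, as functions, below `m`. -/
def Ag (x y m : ZFSet.{0}) : Prop :=
  ∀ i ∈ m, ∀ v ∈ ZFSet.omega, pair i v ∈ x ↔ pair i v ∈ y

/-- The value of `x` at `m` is smaller than the one of `y`. -/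
def Ls (x y m : ZFSet.{0}) : Prop :=
  ∃ a ∈ ZFSet.omega, ∃ b ∈ ZFSet.omega, pair m a ∈ x ∧ pair m b ∈ y ∧ a ∈ b

/-- `x` is lexicographically smaller than `y`. -/
def Lt (x y : ZFSet.{0}) : Prop := ∃ m ∈ ZFSet.omega, Ag x y m ∧ Ls x y m

theorem ag_code {x y : ℕ → ℕ} {m : ℕ} : Ag (code x) (code y) (nat m) ↔ ∀ i < m, x i = y i := by
  constructor
  · intro h i hi
    have h1 := (h (nat i) (nat_mem_nat.2 hi) (nat (x i)) (nat_mem_om _)).1
      (pair_mem_code.2 rfl)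
    exact (pair_mem_code.1 h1).symm
  · intro h i' hi' v hv
    obtain ⟨i, hi, rfl⟩ := mem_nat.1 hi'
    obtain ⟨v, rfl⟩ := mem_omega_iff.1 hv
    rw [pair_mem_code, pair_mem_code, h i hi]

theorem ls_code {x y : ℕ → ℕ} {m : ℕ} : Ls (code x) (code y) (nat m) ↔ x m < y m := by
  constructor
  · rintro ⟨a, ha, b, hb, h1, h2, h3⟩
    obtain ⟨a, rfl⟩ := mem_omega_iff.1 ha
    obtain ⟨b, rfl⟩ := mem_omega_iff.1 hb
    rw [pair_mem_code] at h1 h2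
    rw [h1, h2]
    exact nat_mem_nat.1 h3
  · intro h
    exact ⟨_, nat_mem_om (x m), _, nat_mem_om (y m), pair_mem_code.2 rfl, pair_mem_code.2 rfl,
      nat_mem_nat.2 h⟩

theorem lt_code {x y : ℕ → ℕ} :
    Lt (code x) (code y) ↔ ∃ m, (∀ i < m, x i = y i) ∧ x m < y m := by
  constructor
  · rintro ⟨m, hm, h1, h2⟩
    obtain ⟨m, rfl⟩ := mem_omega_iff.1 hm
    exact ⟨m, ag_code.1 h1, ls_code.1 h2⟩
  · rintro ⟨m, h1, h2⟩
    exact ⟨nat m, nat_mem_om m, ag_code.2 h1, ls_code.2 h2⟩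

/-- `z` is `k⌢x`, for some `k`. -/
def Sh (x z : ZFSet.{0}) : Prop :=
  ∀ m ∈ ZFSet.omega, ∀ v ∈ ZFSet.omega, pair m v ∈ x ↔ pair (insert m m) v ∈ z

theorem sh_code {x z : ℕ → ℕ} : Sh (code x) (code z) ↔ ∀ m, x m = z (m + 1) := by
  have hs : ∀ m, (insert (nat m) (nat m) : ZFSet.{0}) = nat (m + 1) := fun m => rfl
  constructor
  · intro h m
    have h1 := (h (nat m) (nat_mem_om _) (nat (x m)) (nat_mem_om _)).1 (pair_mem_code.2 rfl)
    rw [hs] at h1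
    exact (pair_mem_code.1 h1).symm
  · intro h m hm v hv
    obtain ⟨m, rfl⟩ := mem_omega_iff.1 hm
    obtain ⟨v, rfl⟩ := mem_omega_iff.1 hv
    rw [hs, pair_mem_code, pair_mem_code, h]

section dfn

variable {M : Set ZFSet.{0}} (hM : IsZF M) {n : ℕ} {X Y N : (Fin n → ZFSet.{0}) → ZFSet.{0}}

include hM

theorem ag' (hX : DfnF M M X) (hY : DfnF M M Y) (hN : DfnF M M N) :
    Dfn M M fun v => Ag (X v) (Y v) (N v) := by
  have hB := hM.base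
  apply hB.ball hN
  apply hB.ball (DfnF.const hM.infinity)
  exact (Dfn.mem (hB.pair' (DfnF.proj 1) (DfnF.proj 0)) hX.tail.tail).iff
    (Dfn.mem (hB.pair' (DfnF.proj 1) (DfnF.proj 0)) hY.tail.tail)

theorem ls' (hX : DfnF M M X) (hY : DfnF M M Y) (hN : DfnF M M N) :
    Dfn M M fun v => Ls (X v) (Y v) (N v) := by
  have hB := hM.base
  apply hB.bex (DfnF.const hM.infinity)
  apply hB.bex (DfnF.const hM.infinity)
  apply Dfn.and (Dfn.mem (hB.pair' hN.tail.tail (DfnF.proj 1)) hX.tail.tail)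
  apply Dfn.and (Dfn.mem (hB.pair' hN.tail.tail (DfnF.proj 0)) hY.tail.tail)
  exact Dfn.mem (DfnF.proj 1) (DfnF.proj 0)

theorem lt' (hX : DfnF M M X) (hY : DfnF M M Y) : Dfn M M fun v => Lt (X v) (Y v) := by
  have hB := hM.base
  apply hB.bex (DfnF.const hM.infinity)
  exact (ag' hM hX.tail hY.tail (DfnF.proj 0)).and (ls' hM hX.tail hY.tail (DfnF.proj 0))

theorem sh' (hX : DfnF M M X) (hY : DfnF M M Y) : Dfn M M fun v => Sh (X v) (Y v) := by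
  have hB := hM.base
  apply hB.ball (DfnF.const hM.infinity)
  apply hB.ball (DfnF.const hM.infinity)
  exact (Dfn.mem (hB.pair' (DfnF.proj 1) (DfnF.proj 0)) hX.tail.tail).iff
    (Dfn.mem (hB.pair' (hB.insert' (DfnF.proj 1) (DfnF.proj 1)) (DfnF.proj 0)) hY.tail.tail)

end dfn

/-- `y` is lexicographically minimal in `B` up to `n`. -/
def Mn (B : Set (ℕ → ℕ)) (n : ℕ) (y : ℕ → ℕ) : Prop :=
  y ∈ B ∧ ∀ y' ∈ B, ∀ m < n, ¬ ((∀ i < m, y' i = y i) ∧ y' m < y m)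

theorem Mn.agree {B : Set (ℕ → ℕ)} {n : ℕ} {y y' : ℕ → ℕ} (h : Mn B n y) (h' : Mn B n y') :
    ∀ i < n, y i = y' i := by
  intro i
  induction i using Nat.strong_induction_on with
  | _ i ih =>
  intro hi
  rcases lt_trichotomy (y i) (y' i) with h1 | h1 | h1
  · exact absurd ⟨fun j hj => ih j hj (hj.trans hi), h1⟩ (h'.2 y h.1 i hi)
  · exact h1
  · exact absurd ⟨fun j hj => (ih j hj (hj.trans hi)).symm, h1⟩ (h.2 y' h'.1 i hi)

theorem exists_mn {B : Set (ℕ → ℕ)} (hne : B.Nonempty) (n : ℕ) : ∃ y, Mn B n y := by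
  induction n with
  | zero =>
    obtain ⟨y, hy⟩ := hne
    exact ⟨y, hy, fun _ _ m hm => absurd hm (Nat.not_lt_zero m)⟩
  | succ n ih =>
    obtain ⟨y, hy, h⟩ := ih
    classical
    have hex : ∃ v, ∃ y' ∈ B, (∀ i < n, y' i = y i) ∧ y' n = v := ⟨y n, y, hy, fun _ _ => rfl, rfl⟩
    obtain ⟨y', hy', h1, h2⟩ := Nat.find_spec hex
    refine ⟨y', hy', fun z hz m hm => ?_⟩
    rintro ⟨h3, h4⟩
    rcases Nat.lt_succ_iff_lt_or_eq.1 hm with h5 | rfl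
    · refine h z hz m h5 ⟨fun i hi => (h3 i hi).trans (h1 i (hi.trans h5)), ?_⟩
      rw [← h1 m h5]
      exact h4
    · have h6 := Nat.find_min' hex ⟨z, hz, fun i hi => (h3 i hi).trans (h1 i hi), rfl⟩
      rw [← h2] at h6
      omega

/-- Closed sets have lexicographically least elements. -/
theorem lexmin {M : Set ZFSet.{0}} (hM : IsZF M) {B : Set (ℕ → ℕ)} (hne : B.Nonempty)
    {c : ZFSet.{0}} (hc : c ∈ M) (hcB : ∀ z, z ∈ c ↔ ∃ x ∈ B, z = code x)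
    (hcl : ∀ x ∈ Rls M, (∀ n, ∃ y ∈ B, ∀ i < n, y i = x i) → x ∈ B) :
    ∃ x ∈ B, ∀ y ∈ B, ¬ ∃ m, (∀ i < m, y i = x i) ∧ y m < x m := by
  have hB := hM.base
  choose Y hY using fun n => exists_mn hne n
  set x : ℕ → ℕ := fun n => Y (n + 1) n with hx
  have hmono : ∀ {n k : ℕ} {y : ℕ → ℕ}, k ≤ n → Mn B n y → Mn B k y := fun hkn h =>
    ⟨h.1, fun z hz m hm => h.2 z hz m (hm.trans_le hkn)⟩
  have hag : ∀ {n : ℕ} {y : ℕ → ℕ}, Mn B n y → ∀ i < n, y i = x i := by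
    intro n y h i hi
    exact (hmono (Nat.succ_le_of_lt hi) h).agree (hY (i + 1)) i (Nat.lt_succ_self i)
  have hW : ZFSet.prod ZFSet.omega ZFSet.omega ∈ M := hM.prod_mem hM.infinity hM.infinity
  have hxR : x ∈ Rls M := by
    have h1 : ZFSet.sep (fun p => ∃ y ∈ c, p ∈ y ∧ ∀ y' ∈ c, ∀ m ∈ (insert (fs p) (fs p) : ZFSet.{0}),
        ¬ (Ag y' y m ∧ Ls y' y m)) (ZFSet.prod ZFSet.omega ZFSet.omega) = code x := by
      ext p
      rw [ZFSet.mem_sep, mem_code]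
      constructor
      · rintro ⟨hp, y, hy, hpy, h⟩
        obtain ⟨y, hyB, rfl⟩ := (hcB y).1 hy
        obtain ⟨n, rfl⟩ := mem_code.1 hpy
        rw [fs_pair] at h
        refine ⟨n, ?_⟩
        have h2 : Mn B (n + 1) y := by
          refine ⟨hyB, fun y' hy' m hm => ?_⟩
          rintro ⟨h3, h4⟩
          exact h (code y') ((hcB _).2 ⟨y', hy', rfl⟩) (nat m) (nat_mem_nat (n := n + 1)|>.2 hm)
            ⟨ag_code.2 h3, ls_code.2 h4⟩
        rw [hag h2 n (Nat.lt_succ_self n)]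
      · rintro ⟨n, rfl⟩
        refine ⟨ZFSet.pair_mem_prod.2 ⟨nat_mem_om n, nat_mem_om _⟩, code (Y (n + 1)),
          (hcB _).2 ⟨_, (hY (n + 1)).1, rfl⟩, ?_, ?_⟩
        · exact mem_code.2 ⟨n, rfl⟩
        · intro y'' hy'' m' hm'
          rw [fs_pair] at hm'
          obtain ⟨y', hy'B, rfl⟩ := (hcB y'').1 hy''
          have hm2 : m' ∈ nat (n + 1) := hm'
          obtain ⟨m, hm, rfl⟩ := mem_nat.1 hm2
          rintro ⟨h3, h4⟩
          exact (hY (n + 1)).2 y' hy'B m hm ⟨ag_code.1 h3, ls_code.1 h4⟩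
    have h2 := hM.sep_mem (Q := fun p => ∃ y ∈ c, p ∈ y ∧ ∀ y' ∈ c,
      ∀ m ∈ (insert (fs p) (fs p) : ZFSet.{0}), ¬ (Ag y' y m ∧ Ls y' y m)) (by
        apply hB.bex (DfnF.const hc)
        apply Dfn.and (Dfn.mem (DfnF.proj 1) (DfnF.proj 0))
        apply hB.ball (DfnF.const hc)
        have h3 : DfnF M M fun w : Fin 3 → ZFSet.{0} => fs (w 2) := hM.fs' (DfnF.proj 2)
        apply hB.ball (hB.insert' h3 h3)
        exact ((ag' hM (DfnF.proj 1) (DfnF.proj 2) (DfnF.proj 0)).and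
          (ls' hM (DfnF.proj 1) (DfnF.proj 2) (DfnF.proj 0))).not) hW
    rw [h1] at h2
    exact h2
  refine ⟨x, hcl x hxR fun n => ⟨Y n, (hY n).1, hag (hY n)⟩, fun y hy => ?_⟩
  rintro ⟨m, h1, h2⟩
  refine (hY (m + 1)).2 y hy m (Nat.lt_succ_self m) ⟨fun i hi => ?_, ?_⟩
  · rw [h1 i hi, hag (hY (m + 1)) i (hi.trans (Nat.lt_succ_self m))]
  · exact h2

/-- Inversion for `Σ` classes. -/
theorem sig_inv {M : Set ZFSet.{0}} {b : Bool} {α : Ordinal.{0}} {B : Set (ℕ → ℕ)}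
    (h : Bor M b α B) : (b = true → (α = 1 ∧ ∃ T ∈ M, B = {x | x ∈ Rls M ∧ ∃ n, rs x n ∈ T}) ∨
      (2 ≤ α ∧ ∃ (A : ℕ → Set (ℕ → ℕ)) (β : ℕ → Ordinal.{0}), fam A ∈ M ∧
        (∀ n, 1 ≤ β n ∧ β n < α) ∧ (∀ n, Bor M false (β n) (A n)) ∧ B = ⋃ n, A n)) ∧
      (b = false → ∃ B', Bor M true α B' ∧ B = Rls M \ B') := by
  cases h with
  | opn T hT => exact ⟨fun _ => Or.inl ⟨rfl, T, hT, rfl⟩, fun h => Bool.noConfusion h⟩
  | compl α B h => exact ⟨fun h => Bool.noConfusion h, fun _ => ⟨_, h, rfl⟩⟩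
  | union α A β h2 hA hβ h => exact ⟨fun _ => Or.inr ⟨h2, A, β, hA, hβ, h, rfl⟩, fun h => Bool.noConfusion h⟩

/-- `Π⁰₁` sets. -/
theorem closed_inv {M : Set ZFSet.{0}} {B : Set (ℕ → ℕ)} (h : Bor M false 1 B) :
    ∃ T ∈ M, B = {x | x ∈ Rls M ∧ ∀ n, rs x n ∉ T} := by
  obtain ⟨B', h1, rfl⟩ := (sig_inv h).2 rfl
  rcases (sig_inv h1).1 rfl with ⟨-, T, hT, rfl⟩ | ⟨h2, -⟩
  · refine ⟨T, hT, ?_⟩
    ext x
    constructor
    · rintro ⟨h2, h3⟩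
      exact ⟨h2, fun n hn => h3 ⟨h2, n, hn⟩⟩
    · rintro ⟨h2, h3⟩
      exact ⟨h2, fun h4 => h3 _ h4.2.choose_spec⟩
  · exact absurd h2 (not_le.2 (by exact_mod_cast (one_lt_two : (1 : ℕ) < 2)))

end Run7.h699.BC
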