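import Pool.Agent.Run7.h699.BC.Lex

/-!
# Countable choice for uniformly `Σ⁰₂` sequences
-/

set_option autoImplicit false

namespace Run7.h699.BC

open Pool.Agent.W868 Pool.Agent.H158_PC
open ZFSet (pair)

theorem eq_one_of {β : Ordinal.{0}} (h1 : 1 ≤ β) (h2 : β < 2) : β = 1 := by
  have h3 : β < Order.succ 1 := by
    rw [Order.succ_eq_add_one, one_add_one_eq_two]
    exact h2
  exact le_antisymm (Order.lt_succ_iff.1 h3) h1

theorem two_ne_one' : (2 : Ordinal.{0}) ≠ 1 := by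
  intro h
  have h1 : ((2 : ℕ) : Ordinal.{0}) = ((1 : ℕ) : Ordinal.{0}) := by exact_mod_cast h
  exact absurd (Nat.cast_injective h1) (by norm_num)

theorem acu_two {M : Set ZFSet.{0}} (hM : IsZF M) : ACu M 2 := by
  intro A hne hfam _ hS
  have hB := hM.base
  rcases (sig_inv hS).1 rfl with ⟨h, -⟩ | ⟨-, Bj, β, hF, hβ, hBj, hun⟩
  · exact absurd h two_ne_one'
  have hcl : ∀ n, ∃ T ∈ M, Bj n = {x | x ∈ Rls M ∧ ∀ n, rs x n ∉ T} := fun n =>
    closed_inv (eq_one_of (hβ n).1 (hβ n).2 ▸ hBj n)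
  classical
  have hex : ∀ k, ∃ j, ∃ z ∈ Bj j, z 0 = k := by
    intro k
    obtain ⟨x, hx⟩ := hne k
    have h1 : cns k x ∈ hat A := ⟨k, x, hx, rfl⟩
    rw [hun] at h1
    obtain ⟨j, hj⟩ := Set.mem_iUnion.1 h1
    exact ⟨j, _, hj, rfl⟩
  have hmin : ∀ k, ∃ z, (z ∈ Bj (Nat.find (hex k)) ∧ z 0 = k) ∧
      ∀ y, y ∈ Bj (Nat.find (hex k)) ∧ y 0 = k → ¬ ∃ m, (∀ i < m, y i = z i) ∧ y m < z m := by
    intro k
    set j := Nat.find (hex k) with hj
    obtain ⟨T, hT, hBT⟩ := hcl j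
    have hc : ZFSet.sep (fun z => pair (nat j) z ∈ fam Bj ∧ pair ∅ (nat k) ∈ z)
        (ZFSet.sUnion (ZFSet.sUnion (fam Bj))) ∈ M := by
      refine hM.sep_mem (Q := fun z => pair (nat j) z ∈ fam Bj ∧ pair ∅ (nat k) ∈ z) ?_
        (hM.union _ (hM.union _ hF))
      exact (Dfn.mem (hB.pair' (DfnF.const (hM.nat_mem j)) (DfnF.proj 0)) (DfnF.const hF)).and
        (Dfn.mem (hB.pair' (DfnF.const hM.empty_mem) (DfnF.const (hM.nat_mem k))) (DfnF.proj 0))
    have h0 : ∀ x : ℕ → ℕ, pair ∅ (nat k) ∈ code x ↔ x 0 = k := fun x =>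
      pair_mem_code (x := x) (i := 0) (j := k)
    obtain ⟨z, hz, hzm⟩ := lexmin hM (B := {z | z ∈ Bj j ∧ z 0 = k}) (Nat.find_spec (hex k)) hc
      (by
        intro z
        rw [ZFSet.mem_sep, mem_fam]
        constructor
        · rintro ⟨-, ⟨k', x, hx, h1⟩, h2⟩
          obtain ⟨h3, rfl⟩ := ZFSet.pair_inj.1 h1
          rw [← nat_injective h3] at hx
          exact ⟨x, ⟨hx, (h0 x).1 h2⟩, rfl⟩
        · rintro ⟨x, ⟨hx, hx0⟩, rfl⟩
          refine ⟨ZFSet.mem_sUnion.2 ⟨{nat j, code x}, ZFSet.mem_sUnion.2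
            ⟨pair (nat j) (code x), mem_fam.2 ⟨j, x, hx, rfl⟩, ?_⟩, ?_⟩, ⟨j, x, hx, rfl⟩,
            (h0 x).2 hx0⟩
          · rw [pair, ZFSet.mem_pair]
            exact Or.inr rfl
          · exact ZFSet.mem_pair.2 (Or.inr rfl))
      (by
        intro x hx h
        refine ⟨?_, ?_⟩
        · rw [hBT]
          refine ⟨hx, fun n hn => ?_⟩
          obtain ⟨y, hy, hyx⟩ := h n
          have hy1 := hy.1
          rw [hBT] at hy1
          refine hy1.2 n ?_
          rw [rs_congr hyx]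
          exact hn
        · obtain ⟨y, hy, hyx⟩ := h 1
          rw [← hyx 0 Nat.one_pos]
          exact hy.2)
    exact ⟨z, hz, hzm⟩
  choose Z hZ hZm using hmin
  have hZ' : ∀ k, Z k = cns k (fun n => Z k (n + 1)) := by
    intro k
    funext n
    cases n with
    | zero => exact (hZ k).2
    | succ n => rfl
  refine ⟨fun k n => Z k (n + 1), fun k => ?_, ?_⟩
  · have h1 : Z k ∈ hat A := by
      rw [hun]
      exact Set.mem_iUnion.2 ⟨_, (hZ k).1⟩
    obtain ⟨k', x, hx, h2⟩ := h1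
    have h3 : k = k' := by
      rw [← (hZ k).2, h2]
      rfl
    subst h3
    have h4 : (fun n => Z k (n + 1)) = x := by
      funext n
      rw [h2]
      rfl
    change (fun n => Z k (n + 1)) ∈ A k
    rw [h4]
    exact hx
  · have hω := hM.infinity
    have h0 := hM.empty_mem
    have hQ := hM.sep_mem (Q := fun p => ∃ z ∈ M, pair ∅ (fs p) ∈ z ∧ Sh (sn p) z ∧
      ∃ j ∈ ZFSet.omega, pair j z ∈ fam Bj ∧
        (∀ i ∈ j, ∀ w ∈ M, pair ∅ (fs p) ∈ w → ¬ pair i w ∈ fam Bj) ∧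
        ∀ w ∈ M, pair ∅ (fs p) ∈ w → pair j w ∈ fam Bj → ¬ Lt w z) (by
      apply Dfn.ex
      apply Dfn.and (Dfn.mem (hB.pair' (DfnF.const h0) (hM.fs' (DfnF.proj 1))) (DfnF.proj 0))
      apply Dfn.and (sh' hM (hM.sn' (DfnF.proj 1)) (DfnF.proj 0))
      apply hB.bex (DfnF.const hω)
      apply Dfn.and (Dfn.mem (hB.pair' (DfnF.proj 0) (DfnF.proj 1)) (DfnF.const hF))
      apply Dfn.and
      · apply hB.ball (DfnF.proj 0)
        apply Dfn.all
        apply Dfn.imp (Dfn.mem (hB.pair' (DfnF.const h0) (hM.fs' (DfnF.proj 4))) (DfnF.proj 0))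
        exact (Dfn.mem (hB.pair' (DfnF.proj 1) (DfnF.proj 0)) (DfnF.const hF)).not
      · apply Dfn.all
        apply Dfn.imp (Dfn.mem (hB.pair' (DfnF.const h0) (hM.fs' (DfnF.proj 3))) (DfnF.proj 0))
        apply Dfn.imp (Dfn.mem (hB.pair' (DfnF.proj 1) (DfnF.proj 0)) (DfnF.const hF))
        exact (lt' hM (DfnF.proj 0) (DfnF.proj 2)).not) hfam
    have heq : ZFSet.sep (fun p => ∃ z ∈ M, pair ∅ (fs p) ∈ z ∧ Sh (sn p) z ∧
        ∃ j ∈ ZFSet.omega, pair j z ∈ fam Bj ∧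
          (∀ i ∈ j, ∀ w ∈ M, pair ∅ (fs p) ∈ w → ¬ pair i w ∈ fam Bj) ∧
          ∀ w ∈ M, pair ∅ (fs p) ∈ w → pair j w ∈ fam Bj → ¬ Lt w z) (fam A) =
        seqr fun k n => Z k (n + 1) := by
      have hmemM : ∀ {j : ℕ} {z : ℕ → ℕ}, z ∈ Bj j → code z ∈ M := fun {j z} hz =>
        (hM.of_pair_mem (hM.trans _ hF _ (pair_mem_fam.2 hz))).2
      have h0' : ∀ (x : ℕ → ℕ) (k : ℕ), pair ∅ (nat k) ∈ code x ↔ x 0 = k := fun x k =>
        pair_mem_code (x := x) (i := 0) (j := k)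
      have hin : ∀ k, (fun n => Z k (n + 1)) ∈ A k := by
        intro k
        have h1 : Z k ∈ hat A := by
          rw [hun]
          exact Set.mem_iUnion.2 ⟨_, (hZ k).1⟩
        obtain ⟨k', x, hx, h2⟩ := h1
        have h3 : k = k' := by
          rw [← (hZ k).2, h2]
          rfl
        subst h3
        have h4 : (fun n => Z k (n + 1)) = x := by
          funext n
          rw [h2]
          rfl
        change (fun n => Z k (n + 1)) ∈ A k
        rw [h4]
        exact hx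
      ext p
      rw [ZFSet.mem_sep, mem_seqr]
      constructor
      · rintro ⟨hp, z, -, hz0, hsh, j, -, hjz, hj1, hj2⟩
        obtain ⟨k, x, hx, rfl⟩ := mem_fam.1 hp
        rw [fs_pair] at hz0 hj1 hj2
        rw [sn_pair] at hsh
        obtain ⟨j', z', hz', h1⟩ := mem_fam.1 hjz
        obtain ⟨rfl, rfl⟩ := ZFSet.pair_inj.1 h1
        have hz00 := (h0' z' k).1 hz0
        have h2 : Nat.find (hex k) = j' := by
          refine le_antisymm (Nat.find_min' _ ⟨z', hz', hz00⟩) ?_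
          by_contra hlt
          push Not at hlt
          exact hj1 _ (nat_mem_nat.2 hlt) _ (hmemM (hZ k).1) ((h0' _ _).2 (hZ k).2)
            (pair_mem_fam.2 (hZ k).1)
        have h3 : z' = Z k := by
          by_contra hne'
          have h4 : ∃ i, z' i ≠ Z k i := by
            by_contra h5
            push Not at h5
            exact hne' (funext h5)
          have h5 := Nat.find_spec h4
          have h6 : ∀ i < Nat.find h4, z' i = Z k i := fun i hi => not_not.1 (Nat.find_min h4 hi)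
          rcases lt_or_gt_of_ne h5 with h7 | h7
          · exact hZm k z' ⟨h2 ▸ hz', hz00⟩ ⟨_, h6, h7⟩
          · refine hj2 _ (hmemM (hZ k).1) ((h0' _ _).2 (hZ k).2) ?_
              (lt_code.2 ⟨_, fun i hi => (h6 i hi).symm, h7⟩)
            rw [← h2]
            exact pair_mem_fam.2 (hZ k).1
        refine ⟨k, ?_⟩
        have h4 : x = fun n => Z k (n + 1) := by
          funext n
          rw [sh_code.1 hsh n, h3]
        rw [h4]
      · rintro ⟨k, rfl⟩
        refine ⟨mem_fam.2 ⟨k, _, hin k, rfl⟩, code (Z k), hmemM (hZ k).1, ?_, ?_,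
          nat (Nat.find (hex k)), nat_mem_om _, pair_mem_fam.2 (hZ k).1, ?_, ?_⟩
        · rw [fs_pair]
          exact (h0' _ _).2 (hZ k).2
        · rw [sn_pair]
          exact sh_code.2 fun m => rfl
        · intro i hi w _ hw0 hiw
          rw [fs_pair] at hw0
          obtain ⟨i', hi', rfl⟩ := mem_nat.1 hi
          obtain ⟨i'', w', hw', h1⟩ := mem_fam.1 hiw
          obtain ⟨h2, rfl⟩ := ZFSet.pair_inj.1 h1
          rw [← nat_injective h2] at hw'
          exact Nat.find_min (hex k) hi' ⟨w', hw', (h0' _ _).1 hw0⟩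
        · intro w _ hw0 hjw hlt
          rw [fs_pair] at hw0
          obtain ⟨i'', w', hw', h1⟩ := mem_fam.1 hjw
          obtain ⟨h2, rfl⟩ := ZFSet.pair_inj.1 h1
          rw [← nat_injective h2] at hw'
          exact hZm k w' ⟨hw', (h0' _ _).1 hw0⟩ (lt_code.1 hlt)
    rw [heq] at hQ
    exact hQ

end Run7.h699.BC
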